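import Pool.Agent.H.MP_656320_nt.VB.Ex
import Pool.Agent.H.MP_656320_nt.VB.Vb

/-!
# Balanced sets of residue classes, and the signs of the coefficients at `m² n` for fixed `m`
-/

namespace Pool.Agent.Results.MP_656320_nt.Balanced

open Pool.Agent.H.MP_656320_nt Pool.Agent.H.MP_656320_nt.VB

open Classical in
/-- **Signs of the coefficients `a(m² n)` for fixed `m`, and balanced sets of residue classes.** -/
theorem result (l : ℕ) : ∃ E : ℕ → ℂ → ℕ, (∀ p z, 1 ≤ E p z) ∧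
    ∀ (N : ℕ) (χ lam : ℕ → ℂ) (a : ℕ → ℝ), Hecke l N χ lam a →
      -- the sign law
      (∀ r : Finset ℕ, (∀ p ∈ r, Good l N χ lam p) → ∃ κ : ℝ, (κ = 1 ∨ κ = -1) ∧
        ∀ n : ℕ, 1 ≤ n → n.Coprime (∏ p ∈ r, p) →
          sg (a ((∏ p ∈ r, p ^ E p (lam p)) ^ 2 * n)) =
            κ * (jacobiSym n (∏ p ∈ r, p) : ℝ) * sg (a n)) ∧
      -- balance for most `m`
      (∀ Q : Finset ℕ, (∀ p ∈ Q, Good l N χ lam p) → ∀ (B : Set ℕ) (ε : ℝ), 0 < ε →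
        ∀ x : ℕ, 2 ^ Q.card * ∏ p ∈ Q, p ≤ x →
          ((Q.powerset.filter fun r => ε * x ≤
            |(cnt {n | (n ∈ B ∧ n.Coprime (∏ p ∈ Q, p)) ∧
                0 < a ((∏ p ∈ r, p ^ E p (lam p)) ^ 2 * n)} x : ℝ) -
              cnt {n | (n ∈ B ∧ n.Coprime (∏ p ∈ Q, p)) ∧
                a ((∏ p ∈ r, p ^ E p (lam p)) ^ 2 * n) < 0} x|).card : ℝ) ≤ 2 / ε ^ 2) ∧
      -- balanced sets of residue classes
      ({p | Good l N χ lam p}.Infinite → ∀ (d : ℕ) (B : Set ℕ) (ε : ℝ), 1 ≤ d → 0 < ε →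
        (∀ n, n + d ∈ B ↔ n ∈ B) → (∀ u n : ℕ, u.Coprime d → (u ^ 2 * n ∈ B ↔ n ∈ B)) →
        LPos {n | n ∈ B ∧ a n ≠ 0} →
        ∃ (b : ℕ) (A : Set ℕ), 1 ≤ b ∧ A ⊆ B ∧ (∀ n, n + b ∈ A ↔ n ∈ A) ∧
          LPos {n | n ∈ A ∧ a n ≠ 0} ∧ ∃ x₀ : ℕ, ∀ x, x₀ ≤ x → ∀ c : ℕ,
            |(cnt {n | (n ∈ A ∧ n ≡ c [MOD d]) ∧ 0 < a n} x : ℝ) -
              cnt {n | (n ∈ A ∧ n ≡ c [MOD d]) ∧ a n < 0} x| ≤
              ε * cnt {n | n ∈ A ∧ a n ≠ 0} x) := by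
  obtain ⟨E, hE, hF⟩ := exists_exponents l
  refine ⟨E, hE, fun N χ lam a h => ⟨fun r hr => ?_, fun Q hQ B ε hε x hx => ?_,
    fun hI d B ε hd hε hBd hBs hne => ?_⟩⟩
  · exact law (e := fun p => E p (lam p)) (fun p hp => (hr p hp).1)
      fun p hp => hF N χ lam a h p (hr p hp)
  · have h2N : 2 ∣ N := (by norm_num : 2 ∣ 4).trans h.four
    have hodd : ∀ p ∈ Q, p.Prime ∧ p ≠ 2 := fun p hp =>
      ⟨(hQ p hp).1, fun h1 => (hQ p hp).2.1 (h1 ▸ h2N)⟩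
    exact vertical (e := fun p => E p (lam p)) hodd (fun p hp => hF N χ lam a h p (hQ p hp)) B hε hx
  · exact balanced h hI hd hBd hBs hne hε

end Pool.Agent.Results.MP_656320_nt.Balanced
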