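import Pool.Agent.H.MP_656320_nt.MC.Md
import Pool.Agent.H.MP_656320_nt.MC.Me

/-!
# The positive and the negative coefficients are comparable
-/

namespace Pool.Agent.Results.MP_656320_nt.Comparable

open Finset Filter Pool.Agent.H.MP_656320_nt

open Classical in
/-- **Comparability of the positive and of the negative coefficients**: numbers, large values,
moments and densities. -/
theorem result (l p : ℕ) (hp : p.Prime) (L : ℝ) (hL : L ^ 2 < 4 * (p : ℝ) ^ (2 * (l : ℤ) - 1))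
    (α : ℝ) :
    ∃ K : ℕ, 1 ≤ K ∧ ∀ (N : ℕ) (χ lam : ℕ → ℂ) (a : ℕ → ℝ), Hecke l N χ lam a → ¬ p ∣ N →
      χ p ^ 2 = 1 → lam p = L →
      (∀ F : ℝ → ℝ, Monotone F → (∀ t, 0 ≤ F t) → ∀ x : ℕ,
        ∑ n ∈ Ioc 0 x, (if 0 < a n then F (|a n| * (n : ℝ) ^ α) else 0) ≤
          K * ∑ n ∈ Ioc 0 (K * x), (if a n < 0 then F (K * (|a n| * (n : ℝ) ^ α)) else 0) ∧
        ∑ n ∈ Ioc 0 x, (if a n < 0 then F (|a n| * (n : ℝ) ^ α) else 0) ≤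
          K * ∑ n ∈ Ioc 0 (K * x), (if 0 < a n then F (K * (|a n| * (n : ℝ) ^ α)) else 0)) ∧
      (∀ c : ℝ, 0 < c →
        (∀ᶠ x : ℕ in atTop, c * x ≤ ∑ n ∈ Ioc 0 x, (a n * (n : ℝ) ^ α) ^ 2) →
        ∀ᶠ x : ℕ in atTop,
          c * x ≤ 4 * (K : ℝ) ^ 4 *
            ∑ n ∈ Ioc 0 x, (if 0 < a n then (a n * (n : ℝ) ^ α) ^ 2 else 0) ∧
          c * x ≤ 4 * (K : ℝ) ^ 4 *
            ∑ n ∈ Ioc 0 x, (if a n < 0 then (a n * (n : ℝ) ^ α) ^ 2 else 0)) ∧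
      [LPos {n | 0 < a n}, LPos {n | a n < 0}, LPos {n | a n ≠ 0},
        LPos {n | n ∈ Sf N ∧ a n ≠ 0}].TFAE ∧
      [UPos {n | 0 < a n}, UPos {n | a n < 0}, UPos {n | a n ≠ 0},
        UPos {n | n ∈ Sf N ∧ a n ≠ 0}].TFAE := by
  obtain ⟨K, hK, h⟩ := MC.moments l p hp L hL α
  obtain ⟨_, _, h'⟩ := MC.counts l p hp L hL
  refine ⟨K, hK, fun N χ lam a ha hpN hχ hlam => ?_⟩
  have h1 := h N χ lam a ha hpN hχ hlam
  have h2 := h' N χ lam a ha hpN hχ hlam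
  exact ⟨h1, fun c hc hS => MC.energy hK h1 hc hS, h2.2.1, h2.2.2⟩

end Pool.Agent.Results.MP_656320_nt.Comparable
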