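import Pool.Agent.H.MP_656320_nt.NS.Main

/-!
# The signs of the coefficients at the integers with a large square divisor
-/

namespace Pool.Agent.Results.MP_656320_nt.LargeSquareDivisors

open Filter Topology Pool.Agent.H.MP_656320_nt Pool.Agent.H.MP_656320_nt.LS Pool.Agent.H.MP_656320_nt.NS

/-- **Cancellation of the signs in the square classes, uniformly.** Let `a` be a real sequence
with the relations of `T(p ^ 2)`, `p ∤ N`, of weight `l + 1 / 2`, real eigenvalues `L p` and `χ p = ± 1`,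
such that the primes with `L p < - p ^ (l - 1)` have positive density: the sum of `log p` over those up to `u`
is `δ u + o(u)`, `δ > 0`. Let `Sf N` be the set of the `t ≥ 1` not divisible by the square of a prime `p ∤ N`.

For `ε > 0` the numbers of the `m ≤ y` prime to `N` with `a (t m ^ 2) > 0` and with `a (t m ^ 2) < 0` differ by
at most `ε y + C`, with `C` the same for all `t` in `Sf N`.

Let `DT N z T` be the set of the `t m ^ 2` with `t ∈ T ∩ Sf N` and `m > z` prime to `N`. For `ε > 0` and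
`z ≥ z0(ε)` the numbers of the positive and of the negative `a n`, `n ∈ DT N z T`, `n ≤ x`, differ by at most
`ε x / z`, for all `x` and all sets `T`; for `T = ℕ` the set has at least `x / (72 N z)` elements up to
`x ≥ 9 z ^ 2`, `z ≥ N`. -/
theorem result {l N : ℕ} (hN : 1 ≤ N) {χ : ℕ → ℂ} {L : ℕ → ℝ} {a : ℕ → ℝ}
    (h : Hecke l N χ (fun p => (L p : ℂ)) a) (hχ : ∀ p : ℕ, p.Prime → ¬ p ∣ N → χ p ^ 2 = 1)
    {δ : ℝ} (hδ : 0 < δ)
    (hM : Tendsto (fun u : ℕ => tP {p | L p < - (p : ℝ) ^ ((l : ℤ) - 1)} u / u) atTop (𝓝 δ)) :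
    (∀ ε > 0, ∃ C : ℝ, ∀ t ∈ Sf N, ∀ y : ℕ,
      |(cnt {m | 0 < a (t * m ^ 2) ∧ m.Coprime N} y : ℝ) -
        cnt {m | a (t * m ^ 2) < 0 ∧ m.Coprime N} y| ≤ ε * y + C) ∧
    (∀ ε > 0, ∃ z0 : ℕ, ∀ z x : ℕ, z0 ≤ z → ∀ T : Set ℕ,
      |(cnt {n | 0 < a n ∧ n ∈ DT N z T} x : ℝ) - cnt {n | a n < 0 ∧ n ∈ DT N z T} x| ≤
        ε * x / z) ∧
    ∀ z x : ℕ, N ≤ z → 9 * z ^ 2 ≤ x → (x : ℝ) / (72 * N * z) ≤ cnt (DT N z Set.univ) x :=
  ⟨fun ε hε => unif hN h hχ hδ hM ε hε, main hN h hχ hδ hM⟩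

end Pool.Agent.Results.MP_656320_nt.LargeSquareDivisors
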