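import Pool.Agent.H.MP_656320_nt.SC.Sd

/-!
# A positive proportion of sign changes
-/

namespace Pool.Agent.Results.MP_656320_nt.SignChanges

open Pool.Agent.H.MP_656320_nt Pool.Agent.H.MP_656320_nt.VB Pool.Agent.H.MP_656320_nt.SC

/-- **A positive proportion of sign changes.** Let `a` be a real sequence with the relations of
`T(p ^ 2)`, `p ∤ N`, of weight `l + 1 / 2`, for infinitely many `p` with `χ p = ± 1` and a real
eigenvalue smaller than `2 p ^ (l - 1 / 2)` in absolute value. Let `B` be a set with `u ^ 2 n ∈ B` iff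
`n ∈ B`, for all `u ≥ 1` prime to `d`. The sign changes of `a` along `B` have positive lower (upper) density
iff the `n ∈ B` with `a n ≠ 0` have. -/
theorem result {l N : ℕ} {χ lam : ℕ → ℂ} {a : ℕ → ℝ} (h : Hecke l N χ lam a)
    (hI : {p | Good l N χ lam p}.Infinite) {d : ℕ} (hd : 1 ≤ d) {B : Set ℕ}
    (hB : ∀ u n : ℕ, 1 ≤ u → u.Coprime d → (u ^ 2 * n ∈ B ↔ n ∈ B)) :
    (LPos (ChgOn B a) ↔ LPos {n | n ∈ B ∧ a n ≠ 0}) ∧
      (UPos (ChgOn B a) ↔ UPos {n | n ∈ B ∧ a n ≠ 0}) :=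
  changes h hI hd hB

end Pool.Agent.Results.MP_656320_nt.SignChanges
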